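import Pool.Agent.Lib.MP_d88725_gt.Fb

set_option autoImplicit false

open Pool.Agent.Lib.MP_d88725_gt in
/-- An explicit simplexwise linear embedding of the 7-vertex torus is, through a triangulation
`τ` of the torus, a uniform limit of smooth tight embedded tori. -/
theorem Pool.Agent.Results.MP_d88725_gt.Explicit.result :
    Set.InjOn plMap K7 ∧
    ∃ (τ : (AddCircle (1 : ℝ) × AddCircle (1 : ℝ)) ≃ₜ K7)
      (f : ℕ → AddCircle (1 : ℝ) × AddCircle (1 : ℝ) → EuclideanSpace ℝ (Fin 3)),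
      (∀ k, ContDiff ℝ (⊤ : ℕ∞)
          (fun p : ℝ × ℝ => f k ((p.1 : AddCircle (1 : ℝ)), (p.2 : AddCircle (1 : ℝ)))) ∧
        (∀ p : ℝ × ℝ, Function.Injective (fderiv ℝ
          (fun q : ℝ × ℝ => f k ((q.1 : AddCircle (1 : ℝ)), (q.2 : AddCircle (1 : ℝ)))) p)) ∧
        Function.Injective (f k) ∧
        ∀ (ℓ : EuclideanSpace ℝ (Fin 3) →L[ℝ] ℝ) (c : ℝ), IsPreconnected {x | c < ℓ (f k x)}) ∧
      TendstoUniformly f (fun x => plMap (τ x)) Filter.atTop :=
  ⟨plMap_injOn, csaszar⟩
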